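import Pool.Agent.Lib.SubBisX.CoreSup
import Pool.Agent.Lib.SubBisX.Bounds

/-!
# Random smoothing of the Lovász extension

`F` is submodular with increments of absolute value at most `kap`. The greedy vector of the
Lovász extension, averaged over a uniformly random perturbation in `{0, …, K - 1} ^ n`, is
`5 * kap / K`-Lipschitz in the quadratic sense, with no dependence on the dimension.
-/

namespace Pool.Agent.Lib.SubBisY

open Finset Pool.Agent.Lib.SubBisX Pool.Agent.Lib.SubBisX.Reg Pool.Agent.Lib.SubBisX.Core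

variable {n : ℕ} {F : Finset (Fin n) → ℤ}

/-- the greedy vector -/
def inc (F : Finset (Fin n) → ℤ) (y : Fin n → ℤ) (v : Fin n) : ℤ := F (Up y v) - F (Upo y v)

/-- the perturbed vector -/
def pert {K : ℕ} (y : Fin n → ℤ) (ξ : Fin n → Fin K) : Fin n → ℤ := fun w => y w + (ξ w : ℕ)

/-- the averaged greedy vector -/
noncomputable def Gs (K : ℕ) (F : Finset (Fin n) → ℤ) (y : Fin n → ℤ) (v : Fin n) : ℝ :=
  av fun ξ : Fin n → Fin K => (inc F (pert y ξ) v : ℝ)

theorem inc_anti (hF : ∀ S T, F (S ∪ T) + F (S ∩ T) ≤ F S + F T) {y y' : Fin n → ℤ} {v : Fin n}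
    (h : ∀ w, y w - y v ≤ y' w - y' v) : inc F y' v ≤ inc F y v := by
  have hsub : Upo y v ⊆ Upo y' v := by
    intro w hw
    rw [Upo, mem_filter] at hw ⊢
    refine ⟨mem_univ w, ?_⟩
    have h1 := h w
    rcases hw.2 with h2 | ⟨h2, h3⟩
    · left; linarith
    · rcases lt_or_eq_of_le (show y' v ≤ y' w by linarith) with h4 | h4
      · left; exact h4
      · right; exact ⟨h4.symm, h3⟩
  have h1 := hF (insert v (Upo y v)) (Upo y' v)
  have h2 : insert v (Upo y v) ∪ Upo y' v = insert v (Upo y' v) := by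
    rw [insert_union, union_eq_right.2 hsub]
  have h3 : insert v (Upo y v) ∩ Upo y' v = Upo y v := by
    rw [insert_inter_of_notMem (not_mem_Upo y' v), inter_eq_left.2 hsub]
  rw [h2, h3] at h1
  unfold inc
  rw [Up_eq, Up_eq]
  linarith

theorem Gs_anti (hF : ∀ S T, F (S ∪ T) + F (S ∩ T) ≤ F S + F T) (K : ℕ) {y y' : Fin n → ℤ}
    {v : Fin n} (h : ∀ w, y w - y v ≤ y' w - y' v) : Gs K F y' v ≤ Gs K F y v := by
  refine av_mono fun ξ => ?_
  have h1 : inc F (pert y' ξ) v ≤ inc F (pert y ξ) v := inc_anti hF fun w => by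
    have := h w
    unfold pert
    linarith
  exact_mod_cast h1

theorem abs_inc {kap : ℕ} (hk : ∀ S v, |F (insert v S) - F S| ≤ kap) (y : Fin n → ℤ)
    (v : Fin n) : |inc F y v| ≤ kap := abs_inc_le hk y v

/-- The sum of the averaged greedy vector. -/
theorem sum_Gs (h0 : F ∅ = 0) (K : ℕ) [NeZero K] (y : Fin n → ℤ) :
    ∑ v, Gs K F y v = F univ := by
  unfold Gs
  rw [← av_sum]
  have h : (fun ξ : Fin n → Fin K => ∑ v, (inc F (pert y ξ) v : ℝ)) = fun _ => (F univ : ℝ) := by
    funext ξ
    rw [← sum_inc_univ h0 (pert y ξ)]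
    push_cast
    exact sum_congr rfl fun v _ => by unfold inc; push_cast; rfl
  rw [h, av_const]

/-- Raising one coordinate by one. -/
theorem Gs_self_one {kap K : ℕ} [NeZero K] (hk : ∀ S v, |F (insert v S) - F S| ≤ kap)
    (y : Fin n → ℤ) (v : Fin n) :
    Gs K F (Function.update y v (y v + 1)) v - Gs K F y v ≤ 2 * kap / K := by
  have hK : (0 : ℝ) < K := by exact_mod_cast Nat.pos_of_ne_zero (NeZero.ne K)
  unfold Gs
  rw [← av_sub, ← Bounds.av_update v]
  have hc : (av fun _ : Fin n → Fin K => (2 * kap / K : ℝ)) = 2 * kap / K := av_const _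
  rw [← hc]
  refine av_mono fun w => ?_
  set φ : ℕ → ℝ := fun x => (inc F (fun u => if u = v then y v + x else y u + (w u : ℕ)) v : ℝ)
    with hφ
  have h1 : (fun x : Fin K => (inc F (pert (Function.update y v (y v + 1))
      (Function.update w v x)) v : ℝ) - (inc F (pert y (Function.update w v x)) v : ℝ)) =
      fun x : Fin K => φ ((x : ℕ) + 1) - φ x := by
    funext x
    have e1 : pert (Function.update y v (y v + 1)) (Function.update w v x) =
        fun u => if u = v then y v + ((x : ℕ) + 1 : ℕ) else y u + (w u : ℕ) := by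
      funext u
      unfold pert
      by_cases hu : u = v
      · subst hu
        rw [Function.update_self, Function.update_self, if_pos rfl]
        push_cast
        ring
      · rw [Function.update_of_ne hu, Function.update_of_ne hu, if_neg hu]
    have e2 : pert y (Function.update w v x) =
        fun u => if u = v then y v + (x : ℕ) else y u + (w u : ℕ) := by
      funext u
      unfold pert
      by_cases hu : u = v
      · subst hu
        rw [Function.update_self, if_pos rfl]
      · rw [Function.update_of_ne hu, if_neg hu]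
    rw [e1, e2]
  rw [h1]
  unfold av
  have h2 : ∑ x : Fin K, (φ ((x : ℕ) + 1) - φ x) = φ K - φ 0 := by
    rw [Finset.sum_range (fun i => φ (i + 1) - φ i) |>.symm, Finset.sum_range_sub]
  rw [h2, Fintype.card_fin]
  refine div_le_div_of_nonneg_right ?_ hK.le
  have h3 : ∀ x, |φ x| ≤ kap := by
    intro x
    have := abs_inc (F := F) hk (fun u => if u = v then y v + x else y u + (w u : ℕ)) v
    show |((inc F (fun u => if u = v then y v + x else y u + (w u : ℕ)) v : ℤ) : ℝ)| ≤ kap
    exact_mod_cast this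
  have h4 := abs_le.1 (h3 K)
  have h5 := abs_le.1 (h3 0)
  linarith

/-- Raising one coordinate. -/
theorem Gs_self {kap K : ℕ} [NeZero K] (hk : ∀ S v, |F (insert v S) - F S| ≤ kap)
    (y : Fin n → ℤ) (v : Fin n) (k : ℕ) :
    Gs K F (Function.update y v (y v + k)) v - Gs K F y v ≤ 2 * kap / K * k := by
  induction k with
  | zero => simp
  | succ k ih =>
    have h1 := Gs_self_one (K := K) hk (Function.update y v (y v + k)) v
    rw [Function.update_self, Function.update_idem] at h1
    have h2 : y v + ((k + 1 : ℕ) : ℤ) = y v + k + 1 := by push_cast; ring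
    rw [h2]
    push_cast
    nlinarith

/-- Raising other coordinates by at most `k`. -/
theorem Gs_row (hF : ∀ S T, F (S ∪ T) + F (S ∩ T) ≤ F S + F T) {kap K : ℕ} [NeZero K]
    (hk : ∀ S v, |F (insert v S) - F S| ≤ kap) (y : Fin n → ℤ) (v : Fin n) (h : Fin n → ℤ)
    (hv : 0 ≤ h v) (k : ℕ) (hh : ∀ w, h w ≤ k) :
    Gs K F y v - Gs K F (y + h) v ≤ 2 * kap / K * k := by
  have h1 := Gs_self (K := K) hk (Function.update y v (y v - k)) v k
  rw [Function.update_self, Function.update_idem] at h1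
  have h2 : y v - (k : ℤ) + k = y v := by ring
  rw [h2, Function.update_eq_self] at h1
  have h3 : Gs K F (Function.update y v (y v - k)) v ≤ Gs K F (y + h) v := by
    refine Gs_anti hF K fun w => ?_
    by_cases hw : w = v
    · subst hw; simp
    · rw [Function.update_of_ne hw, Function.update_self]
      have := hh w
      simp only [Pi.add_apply]
      linarith
  linarith

/-- The own coordinate gains at most what it is raised by. -/
theorem Gs_own (hF : ∀ S T, F (S ∪ T) + F (S ∩ T) ≤ F S + F T) {kap K : ℕ} [NeZero K]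
    (hk : ∀ S v, |F (insert v S) - F S| ≤ kap) (y : Fin n → ℤ) (h : Fin n → ℤ)
    (hh : ∀ w, 0 ≤ h w) (v : Fin n) (k : ℕ) (hv : h v ≤ k) :
    Gs K F (y + h) v - Gs K F y v ≤ 2 * kap / K * k := by
  have h1 := Gs_self (K := K) hk y v k
  have h3 : Gs K F (y + h) v ≤ Gs K F (Function.update y v (y v + k)) v := by
    refine Gs_anti hF K fun w => ?_
    by_cases hw : w = v
    · subst hw; simp
    · rw [Function.update_of_ne hw, Function.update_self]
      have := hh w
      simp only [Pi.add_apply]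
      linarith
  linarith

/-- Raising other coordinates lowers. -/
theorem Gs_raise_le (hF : ∀ S T, F (S ∪ T) + F (S ∩ T) ≤ F S + F T) (K : ℕ)
    (y h : Fin n → ℤ) (hh : ∀ w, 0 ≤ h w) (v : Fin n) (hv : h v = 0) :
    Gs K F (y + h) v ≤ Gs K F y v := by
  refine Gs_anti hF K fun w => ?_
  have := hh w
  simp only [Pi.add_apply]
  linarith

/-- Raising a set of coordinates by one. -/
theorem Gs_col (h0 : F ∅ = 0) (hF : ∀ S T, F (S ∪ T) + F (S ∩ T) ≤ F S + F T) {kap K : ℕ}
    [NeZero K] (hk : ∀ S v, |F (insert v S) - F S| ≤ kap) (y : Fin n → ℤ) (W : Finset (Fin n)) :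
    ∑ v ∈ Wᶜ, (Gs K F y v - Gs K F (y + fun w => if w ∈ W then 1 else 0) v) ≤
      2 * kap / K * W.card := by
  have h1 := sum_Gs (F := F) h0 K y
  have h2 := sum_Gs (F := F) h0 K (y + fun w => if w ∈ W then 1 else 0)
  rw [← sum_add_sum_compl W] at h1 h2
  have h3 : ∑ v ∈ Wᶜ, (Gs K F y v - Gs K F (y + fun w => if w ∈ W then 1 else 0) v) =
      ∑ v ∈ W, (Gs K F (y + fun w => if w ∈ W then 1 else 0) v - Gs K F y v) := by
    rw [sum_sub_distrib, sum_sub_distrib]
    linarith
  rw [h3]
  refine (sum_le_card_nsmul _ _ (2 * kap / K : ℝ) fun v hv => ?_).trans (le_of_eq ?_)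
  · have h4 := Gs_own (K := K) hF hk y (fun w => if w ∈ W then 1 else 0)
      (fun w => by split_ifs <;> norm_num) v 1 (by split_ifs <;> norm_num)
    simpa using h4
  · rw [nsmul_eq_mul]; ring

/-- the truncation of `h` at level `j` -/
def trn (h : Fin n → ℕ) (j : ℕ) : Fin n → ℤ := fun w => (min (h w) j : ℕ)

theorem trn_zero (h : Fin n → ℕ) : trn h 0 = 0 := by
  funext w; simp [trn]

theorem trn_succ (h : Fin n → ℕ) (j : ℕ) :
    trn h (j + 1) = trn h j + fun w => if w ∈ univ.filter (fun w => j < h w) then 1 else 0 := by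
  funext w
  simp only [trn, Pi.add_apply, mem_filter, mem_univ, true_and]
  split_ifs with hw
  · rw [min_eq_right (by omega), min_eq_right (by omega)]
    push_cast; ring
  · rw [min_eq_left (by omega), min_eq_left (by omega)]
    push_cast; ring

/-- The sum form of the truncation argument. -/
theorem mul_tele_le (a : ℕ → ℝ) (ha : ∀ j, a (j + 1) ≤ a j) (c J : ℕ) (hc : c ≤ J) :
    (c : ℝ) * (a 0 - a J) ≤ c * (a 0 - a c) + ∑ j ∈ range J, (j : ℝ) * (a j - a (j + 1)) := by
  induction J, hc using Nat.le_induction with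
  | base =>
    have : 0 ≤ ∑ j ∈ range c, (j : ℝ) * (a j - a (j + 1)) :=
      sum_nonneg fun j _ => mul_nonneg (Nat.cast_nonneg j) (by linarith [ha j])
    linarith
  | succ J hJ ih =>
    rw [sum_range_succ]
    have h1 : (c : ℝ) ≤ J := by exact_mod_cast hJ
    have h2 := ha J
    nlinarith

/-- Raising by `h`, tested with weights on the other coordinates. -/
theorem Gs_raise (h0 : F ∅ = 0) (hF : ∀ S T, F (S ∪ T) + F (S ∩ T) ≤ F S + F T) {kap K : ℕ}
    [NeZero K] (hk : ∀ S v, |F (insert v S) - F S| ≤ kap) (y : Fin n → ℤ) (h c : Fin n → ℕ) :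
    ∑ v ∈ univ.filter (fun v => h v = 0),
      (c v : ℝ) * (Gs K F y v - Gs K F (y + fun w => (h w : ℤ)) v) ≤
      2 * kap / K * (∑ v ∈ univ.filter (fun v => h v = 0), (c v : ℝ) ^ 2 +
        (∑ w, (h w : ℝ) ^ 2) / 2) := by
  classical
  set Z := univ.filter (fun v => h v = 0) with hZ
  obtain ⟨J, hJ⟩ : ∃ J, ∀ w, h w ≤ J := ⟨univ.sup h, fun w => le_sup (mem_univ w)⟩
  have hH : (0 : ℝ) ≤ 2 * kap / K := by positivity
  have hJ' : (fun w => (h w : ℤ)) = trn h J := by
    funext w
    simp [trn, hJ w]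
  have hpos : ∀ v ∈ Z, ∀ j, Gs K F (y + trn h (j + 1)) v ≤ Gs K F (y + trn h j) v := by
    intro v hv j
    rw [trn_succ, ← add_assoc]
    refine Gs_raise_le hF K _ _ (fun w => by split_ifs <;> norm_num) v ?_
    have : h v = 0 := (mem_filter.1 hv).2
    simp [this]
  have h1 : ∀ v ∈ Z, (c v : ℝ) * (Gs K F y v - Gs K F (y + fun w => (h w : ℤ)) v) ≤
      2 * kap / K * (c v : ℝ) ^ 2 + ∑ j ∈ range J, (j : ℝ) *
        (Gs K F (y + trn h j) v - Gs K F (y + trn h (j + 1)) v) := by
    intro v hv
    have hv0 : h v = 0 := (mem_filter.1 hv).2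
    have hc0 : (0 : ℝ) ≤ c v := Nat.cast_nonneg _
    rcases le_or_gt (c v) J with hcJ | hcJ
    · have h2 := mul_tele_le (fun j => Gs K F (y + trn h j) v) (hpos v hv) (c v) J hcJ
      simp only [trn_zero, add_zero] at h2
      rw [hJ']
      have h3 := Gs_row (K := K) hF hk y v (trn h (c v)) (by simp [trn]) (c v)
        (fun w => by simp [trn])
      nlinarith
    · have h3 := Gs_row (K := K) hF hk y v (fun w => (h w : ℤ)) (by simp) (c v)
        (fun w => by exact_mod_cast (hJ w).trans hcJ.le)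
      have h4 : 0 ≤ ∑ j ∈ range J, (j : ℝ) *
          (Gs K F (y + trn h j) v - Gs K F (y + trn h (j + 1)) v) :=
        sum_nonneg fun j _ => mul_nonneg (Nat.cast_nonneg j) (by linarith [hpos v hv j])
      nlinarith
  refine (sum_le_sum h1).trans ?_
  rw [sum_add_distrib, sum_comm, ← mul_sum, mul_add]
  refine add_le_add le_rfl ?_
  have h5 : ∀ j ∈ range J, (∑ v ∈ Z, (j : ℝ) *
      (Gs K F (y + trn h j) v - Gs K F (y + trn h (j + 1)) v)) ≤
      2 * kap / K * ∑ w, (if j < h w then (j : ℝ) else 0) := by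
    intro j _
    rw [← mul_sum]
    have h6 := Gs_col (K := K) h0 hF hk (y + trn h j) (univ.filter fun w => j < h w)
    rw [add_assoc, ← trn_succ] at h6
    have h7 : ∑ v ∈ Z, (Gs K F (y + trn h j) v - Gs K F (y + trn h (j + 1)) v) ≤
        ∑ v ∈ (univ.filter fun w => j < h w)ᶜ,
          (Gs K F (y + trn h j) v - Gs K F (y + trn h (j + 1)) v) := by
      refine sum_le_sum_of_subset_of_nonneg ?_ ?_
      · intro v hv
        rw [mem_compl, mem_filter]
        have : h v = 0 := (mem_filter.1 hv).2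
        rintro ⟨_, h8⟩
        omega
      · intro v hv _
        rw [mem_compl, mem_filter] at hv
        have h8 : ¬ j < h v := fun h9 => hv ⟨mem_univ v, h9⟩
        have h9 := Gs_raise_le hF K (y + trn h j)
          (fun w => if w ∈ univ.filter (fun w => j < h w) then 1 else 0)
          (fun w => by split_ifs <;> norm_num) v (by simp [h8])
        rw [add_assoc, ← trn_succ] at h9
        linarith
    have h8 : ∑ w, (if j < h w then (j : ℝ) else 0) =
        j * (univ.filter fun w => j < h w).card := by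
      rw [← sum_filter, sum_const, nsmul_eq_mul, mul_comm]
    rw [h8]
    have h9 := mul_le_mul_of_nonneg_left (h7.trans h6) (Nat.cast_nonneg (α := ℝ) j)
    calc _ ≤ _ := h9
      _ = _ := by ring
  refine (sum_le_sum h5).trans ?_
  rw [← mul_sum]
  refine mul_le_mul_of_nonneg_left ?_ hH
  rw [sum_comm, sum_div]
  refine sum_le_sum fun w _ => ?_
  have h6 : ∑ j ∈ range J, (if j < h w then (j : ℝ) else 0) = ∑ j ∈ range (h w), (j : ℝ) := by
    rw [← sum_filter]
    refine sum_congr ?_ fun _ _ => rfl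
    ext j
    rw [mem_filter, mem_range, mem_range]
    have := hJ w
    omega
  rw [h6]
  have h7 : ∀ k : ℕ, ∑ j ∈ range k, (j : ℝ) ≤ (k : ℝ) ^ 2 / 2 := by
    intro k
    induction k with
    | zero => simp
    | succ k ih =>
      rw [sum_range_succ]
      push_cast
      nlinarith
  exact h7 (h w)

/-- **The averaged greedy vector is Lipschitz.** -/
theorem Gs_lip (h0 : F ∅ = 0) (hF : ∀ S T, F (S ∪ T) + F (S ∩ T) ≤ F S + F T) {kap K : ℕ}
    [NeZero K] (hk : ∀ S v, |F (insert v S) - F S| ≤ kap) (y y' : Fin n → ℤ) :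
    ∑ v, (Gs K F y' v - Gs K F y v) * ((y' v - y v : ℤ) : ℝ) ≤
      5 * kap / K * ∑ v, ((y' v - y v : ℤ) : ℝ) ^ 2 := by
  classical
  set p : Fin n → ℕ := fun v => (y' v - y v).toNat with hp
  set q : Fin n → ℕ := fun v => (y v - y' v).toNat with hq
  set u : Fin n → ℤ := fun v => max (y v) (y' v) with hu
  have hup : u = y + fun v => (p v : ℤ) := by
    funext v
    simp only [hu, hp, Pi.add_apply]
    omega
  have huq : u = y' + fun v => (q v : ℤ) := by
    funext v
    simp only [hu, hq, Pi.add_apply]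
    omega
  set H : ℝ := 2 * kap / K with hHdef
  have hH : 0 ≤ H := by positivity
  -- termwise
  have h1 : ∀ v, (Gs K F y' v - Gs K F y v) * ((y' v - y v : ℤ) : ℝ) ≤
      H * ((y' v - y v : ℤ) : ℝ) ^ 2 +
      ((if p v = 0 then (q v : ℝ) * (Gs K F y v - Gs K F (y + fun w => (p w : ℤ)) v) else 0) +
      (if q v = 0 then (p v : ℝ) * (Gs K F y' v - Gs K F (y' + fun w => (q w : ℤ)) v) else 0)) := by
    intro v
    rw [← hup, ← huq]
    rcases le_total (y v) (y' v) with h2 | h2
    · have hq0 : q v = 0 := by simp only [hq]; omega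
      have hpv : ((y' v - y v : ℤ) : ℝ) = (p v : ℝ) := by
        have : y' v - y v = (p v : ℤ) := by simp only [hp]; omega
        rw [this]; push_cast; rfl
      rw [hpv, if_pos hq0]
      have h3 : Gs K F u v - Gs K F y v ≤ H * p v := by
        rw [hup]
        exact Gs_own (K := K) hF hk y _ (fun w => Int.natCast_nonneg _) v (p v) le_rfl
      have h4 : (if p v = 0 then (q v : ℝ) * (Gs K F y v - Gs K F u v) else 0) = 0 := by
        rw [hq0]; simp
      rw [h4]
      have h5 : (0 : ℝ) ≤ p v := Nat.cast_nonneg _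
      nlinarith
    · have hp0 : p v = 0 := by simp only [hp]; omega
      have hqv : ((y' v - y v : ℤ) : ℝ) = -(q v : ℝ) := by
        have : y' v - y v = -(q v : ℤ) := by simp only [hq]; omega
        rw [this]; push_cast; rfl
      rw [hqv, if_pos hp0]
      have h3 : Gs K F u v - Gs K F y' v ≤ H * q v := by
        rw [huq]
        exact Gs_own (K := K) hF hk y' _ (fun w => Int.natCast_nonneg _) v (q v) le_rfl
      have h4 : (if q v = 0 then (p v : ℝ) * (Gs K F y' v - Gs K F u v) else 0) = 0 := by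
        rw [hp0]; simp
      rw [h4]
      have h5 : (0 : ℝ) ≤ q v := Nat.cast_nonneg _
      nlinarith
  refine (sum_le_sum fun v _ => h1 v).trans ?_
  rw [sum_add_distrib, sum_add_distrib, ← mul_sum, ← sum_filter, ← sum_filter]
  have h2 := Gs_raise (K := K) h0 hF hk y p q
  have h3 := Gs_raise (K := K) h0 hF hk y' q p
  have h4 : ∀ v, ((y' v - y v : ℤ) : ℝ) ^ 2 = (p v : ℝ) ^ 2 + (q v : ℝ) ^ 2 := by
    intro v
    rcases le_total (y v) (y' v) with h5 | h5
    · have hq0 : q v = 0 := by simp only [hq]; omega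
      have : y' v - y v = (p v : ℤ) := by simp only [hp]; omega
      rw [this, hq0]; push_cast; ring
    · have hp0 : p v = 0 := by simp only [hp]; omega
      have : y' v - y v = -(q v : ℤ) := by simp only [hq]; omega
      rw [this, hp0]; push_cast; ring
  have h5 : ∑ v ∈ univ.filter (fun v => p v = 0), (q v : ℝ) ^ 2 ≤ ∑ v, (q v : ℝ) ^ 2 :=
    sum_le_sum_of_subset_of_nonneg (filter_subset _ _) fun _ _ _ => sq_nonneg _
  have h6 : ∑ v ∈ univ.filter (fun v => q v = 0), (p v : ℝ) ^ 2 ≤ ∑ v, (p v : ℝ) ^ 2 :=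
    sum_le_sum_of_subset_of_nonneg (filter_subset _ _) fun _ _ _ => sq_nonneg _
  have h7 : ∑ v, ((y' v - y v : ℤ) : ℝ) ^ 2 = ∑ v, (p v : ℝ) ^ 2 + ∑ v, (q v : ℝ) ^ 2 := by
    rw [← sum_add_distrib]
    exact sum_congr rfl fun v _ => h4 v
  have h8 : 5 * kap / K * ∑ v, ((y' v - y v : ℤ) : ℝ) ^ 2 =
      H * (5 / 2 * (∑ v, (p v : ℝ) ^ 2 + ∑ v, (q v : ℝ) ^ 2)) := by
    rw [h7, hHdef]; ring
  rw [h8, h7]
  have h9 := mul_le_mul_of_nonneg_left h5 hH
  have h10 := mul_le_mul_of_nonneg_left h6 hH
  nlinarith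

end Pool.Agent.Lib.SubBisY
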